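import Pool.Graph.R_seed8.Results.MP_1b7159_an.UniformBepsNotType2
import Pool.Agent.H74.BE.Basis

/-!
# Bilinear extension with explicit constants, without the upper 2-estimate and without infratype 2

One real Banach space `X` with a normalised 1-unconditional basis `e`, and its complexification `Z`,
have the uniform bilinear extension property for pairs of closed subspaces, with the constants
`861²` and `2 · (2 · 861)²`. For every `C` there are finitely many numbers `t_i` with `∑ t_i² ≤ 1` and
`‖∑ ± t_i e_i‖ ≥ C` for all choices of signs (by unconditionality they all give the same norm). So the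
basis does not satisfy an upper 2-estimate, and the spaces do not even have infratype 2, where the
average over the signs is replaced by the minimum; in particular they do not have type 2.

`UniformBEPS`, `HasType2`, `IsUnconditionalBasis` are defined in the library module
`UniformBepsNotType2`.
-/

set_option autoImplicit false

namespace Pool.Agent.Results.MP_1b7159_an.NotInfratypeTwo

open Pool.Agent.Helper579.Beps Pool.Agent.Helper149.Beps Pool.Agent.Y279.BepsU
open Pool.Agent.H74.BE
open Pool.Agent.Results.MP_1b7159_an.UniformBepsNotType2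

/-- Infratype 2: for a constant `C` and all vectors `x_i` *some* choice of signs satisfies
`‖∑ ± x_i‖ ≤ C (∑ ‖x_i‖²)^(1/2)`. -/
def HasInfratype2 (X : Type) [NormedAddCommGroup X] : Prop :=
  ∃ C : ℝ, ∀ (n : ℕ) (x : Fin n → X), ∃ ε : Fin n → Bool,
    ‖∑ i, (if ε i then x i else -x i)‖ ≤ C * √(∑ i, ‖x i‖ ^ 2)

/-- `Z` is a complexification of the real space `X`: `j` embeds `X` isometrically and real linearly
in `Z`, and `Z = j X ⊕ i j X`. -/
structure IsComplexification {X Z : Type} [NormedAddCommGroup X] [NormedSpace ℝ X]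
    [NormedAddCommGroup Z] [NormedSpace ℂ Z] (j : X → Z) : Prop where
  add : ∀ x y, j (x + y) = j x + j y
  smul : ∀ (r : ℝ) (x : X), j (r • x) = (r : ℂ) • j x
  norm : ∀ x, ‖j x‖ = ‖x‖
  span : ∀ z, ∃ x y, z = j x + Complex.I • j y
  indep : ∀ x y, j x + Complex.I • j y = 0 → x = 0 ∧ y = 0

/-- There is a real Banach space `X` with a normalised 1-unconditional basis `e` such that
* every bilinear form on a product `Y × W` of closed subspaces of `X` bounded by `b` extends to `X × X`
  with bound `861² b`;
* the basis fails the upper 2-estimate: `∑ t_i² ≤ 1` and `‖∑ t_i e_i‖ ≥ C` occur together for every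
  `C`; `X` does not have infratype 2 and hence does not have type 2;
* `X` has a complexification `Z` which is a complex Banach space with the extension property, with
  the constant `2 · (2 · 861)²`, and without infratype 2. -/
theorem result :
    ∃ (X : Type) (_ : NormedAddCommGroup X) (_ : NormedSpace ℝ X) (_ : CompleteSpace X)
      (e : ℕ → X), IsUnconditionalBasis X e ∧ UniformBEPS ℝ X (861 ^ 2) ∧
      (∀ C : ℝ, ∃ (s : Finset ℕ) (t : ℕ → ℝ), ∑ i ∈ s, t i ^ 2 ≤ 1 ∧
        C ≤ ‖∑ i ∈ s, t i • e i‖) ∧
      ¬ HasInfratype2 X ∧ ¬ HasType2 X ∧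
      ∃ (Z : Type) (_ : NormedAddCommGroup Z) (_ : NormedSpace ℂ Z) (_ : CompleteSpace Z)
        (j : X → Z), IsComplexification j ∧ UniformBEPS ℂ Z (2 * (2 * 861) ^ 2) ∧
        ¬ HasInfratype2 Z ∧ ¬ HasType2 Z := by
  obtain ⟨X, i1, i2, i3, e, e1, e2, e3, h2, h4, h3, hb⟩ := main_basis'
  refine ⟨X, i1, i2, i3, e, ⟨e1, e3, fun s t a b hst h => e2 s t hst a b h⟩, ?_, hb,
    far_not_infratype h3, far_not_type2 h3,
    XC X, inferInstance, inferInstance, inferInstance, inX,
    ⟨inX_add, inX_smul, norm_inX, inX_span, inX_indep⟩, ?_,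
    far_not_infratype (far_XC h3), far_not_type2 (far_XC h3)⟩
  · intro Y Z _ _ B b hB
    obtain ⟨B', hn, hB'⟩ := beps_of_qstar_bd 861 (by norm_num) h2 Y Z B |b| (abs_nonneg b)
      (fun y z => (hB y z).trans (by gcongr; exact le_abs_self b))
    refine ⟨(ContinuousLinearMap.coeLM ℝ).comp (B' : X →ₗ[ℝ] X →L[ℝ] ℝ), ?_, ?_⟩
    · intro x z
      refine (hn x z).trans (le_of_eq ?_)
      ring
    · intro y z
      exact hB' y z
  · intro Y Z _ _ B b hB
    obtain ⟨B', hn, hB'⟩ := beps_complex_bd (861 * 2) (by norm_num)
      (qstar_XC2 (by norm_num) h4) Y Z B |b| (abs_nonneg b)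
      (fun y z => (hB y z).trans (by gcongr; exact le_abs_self b))
    refine ⟨B', ?_, hB'⟩
    intro x z
    refine (hn x z).trans (le_of_eq ?_)
    ring

end Pool.Agent.Results.MP_1b7159_an.NotInfratypeTwo
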